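import Pool.Agent.Y320.BP.Main

/-!
# Embeddings and isomorphisms between the spaces `C(B(κ)^I)`, `I` countable
-/

set_option autoImplicit false

namespace Pool.Agent.Results.MP_b4ec01_an.PowersClassified

open Pool.Agent.Helper358.LOne Pool.Agent.Y320.BP Cardinal

universe u

/-- Throughout `Ball κ` is the compact space `B(κ)` (topology induced from the product `κ → ℝ`),
`≃L[ℝ]` is a linear homeomorphism for the norm topologies, and `Emb X Y` says that the Banach space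
`X` is isomorphic to a subspace of `Y` (some bounded operator `X → Y` is bounded below).

1. Let `κ` be uncountable, `Λ` any set, `I` countably infinite and `J` countable. Then `C(B(κ)^I)`
   is isomorphic to a subspace of `C(B(Λ)^J)` if and only if `|κ| ≤ |Λ|` and `J` is infinite, and
   the two spaces are isomorphic if and only if `|κ| = |Λ|` and `J` is infinite.
2. For `|κ| ≥ ℵ_ω`, any set `Λ`, and countable `I`, `J` with `I` nonempty, `C(B(κ)^I)` is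
   isomorphic to a subspace of `C(B(Λ)^J)` if and only if `|κ| ≤ |Λ|` and `|I| ≤ |J|`, and the two
   spaces are isomorphic if and only if `|κ| = |Λ|` and `|I| = |J|`.
3. For uncountable `κ` with one-point compactification `A(κ)` of the discrete space `κ`, the space
   `C(A(κ)^ω)` is not isomorphic to a subspace of `C(B(Λ)^m)` for any set `Λ` and any finite `m`.
4. In particular, for every uncountable `κ`, every set `Λ` and every finite `m`, `C(B(κ)^ω)` is not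
   isomorphic to a subspace of `C(B(Λ))` or of `C(B(Λ)^m)`; so `C(B(κ))` is not isomorphic to
   `C(B(κ)^ω)`; and for `|κ| ≥ ℵ_ω` it is not isomorphic to `C(B(κ)^n)`, `n ≥ 2`, either. -/
theorem result :
    (∀ (κ Λ : Type u) (I J : Type), Uncountable κ → Infinite I → Countable I → Countable J →
      (Emb C(I → Ball κ, ℝ) C(J → Ball Λ, ℝ) ↔ #κ ≤ #Λ ∧ Infinite J) ∧
      (Nonempty (C(I → Ball κ, ℝ) ≃L[ℝ] C(J → Ball Λ, ℝ)) ↔ #κ = #Λ ∧ Infinite J)) ∧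
    (∀ (κ Λ : Type u) (I J : Type), ℵ_ Ordinal.omega0 ≤ #κ → Nonempty I → Countable I →
      Countable J →
      (Emb C(I → Ball κ, ℝ) C(J → Ball Λ, ℝ) ↔ #κ ≤ #Λ ∧ #I ≤ #J) ∧
      (Nonempty (C(I → Ball κ, ℝ) ≃L[ℝ] C(J → Ball Λ, ℝ)) ↔ #κ = #Λ ∧ #I = #J)) ∧
    (∀ (κ Λ : Type u) [TopologicalSpace κ] [DiscreteTopology κ], Uncountable κ → ∀ m : ℕ,
      ¬ Emb C(ℕ → OnePoint κ, ℝ) C(Fin m → Ball Λ, ℝ)) ∧
    (∀ κ : Type u, Uncountable κ →
      (∀ (Λ : Type u) (m : ℕ), ¬ Emb C(ℕ → Ball κ, ℝ) C(Fin m → Ball Λ, ℝ)) ∧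
      (∀ Λ : Type u, ¬ Emb C(ℕ → Ball κ, ℝ) C(Ball Λ, ℝ)) ∧
      IsEmpty (C(Ball κ, ℝ) ≃L[ℝ] C(ℕ → Ball κ, ℝ))) ∧
    (∀ κ : Type u, ℵ_ Ordinal.omega0 ≤ #κ → ∀ n : ℕ, 2 ≤ n →
      IsEmpty (C(Ball κ, ℝ) ≃L[ℝ] C(Fin n → Ball κ, ℝ))) := by
  have h1 : ∀ κ Λ : Type u, Uncountable κ → ¬ Emb C(ℕ → Ball κ, ℝ) C(Ball Λ, ℝ) :=
    fun κ Λ hκ h => omega_not Λ hκ 1 (h.trans (emb_one Λ))
  refine ⟨fun κ Λ I J hκ hI hIc hJc => ⟨emb_iff_infinite κ Λ I J hκ hI hIc hJc,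
      equiv_iff_infinite κ Λ I J hκ hI hIc hJc⟩,
    fun κ Λ I J hκ hI hIc hJc => ⟨emb_iff κ Λ I J hκ hI hIc hJc,
      equiv_iff κ Λ I J hκ hI hIc hJc⟩,
    fun κ Λ _ _ hκ m => one_not Λ hκ m,
    fun κ hκ => ⟨fun Λ m => omega_not Λ hκ m, fun Λ => h1 κ Λ hκ,
      ⟨fun e => h1 κ κ hκ (emb_of_equiv e.symm)⟩⟩,
    fun κ hκ n hn => ⟨fun e => ?_⟩⟩
  exact fin_not κ hκ (by omega : 1 < n) ((emb_of_equiv e.symm).trans (emb_one κ))

end Pool.Agent.Results.MP_b4ec01_an.PowersClassified
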